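import Pool.Agent.Y248.FD.Stm
import Pool.Agent.Y248.BA.Kern

/-!
# Job Y248-FD DC: rapid decay of the kernels outside boxes (helper448)
-/

set_option autoImplicit false

namespace Pool.Agent.Y448.FD

open MeasureTheory Set Metric Complex Filter
open scoped ENNReal RealInnerProductSpace Topology FourierTransform
open Pool.Agent.H789R2.FR (E)
open Pool.Agent.H438R2.RZ (Bump)
open Pool.Agent.Y248.BA (mu mu_smooth mu_far lin_one lin_two)
open Pool.Agent.Y248.FB Pool.Agent.Y248.FC Pool.Agent.Y248.FD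

noncomputable section

/-! ### Quadratic functions -/

section quad

variable {V H : Type*} [NormedAddCommGroup V] [NormedSpace ℝ V] [NormedAddCommGroup H]
  [InnerProductSpace ℝ H]

/-- derivative of `c ‖T η‖²` -/
def LqT (T : V →L[ℝ] H) (c : ℝ) : V →L[ℝ] V →L[ℝ] ℝ :=
  (2 * c) • ((innerSL ℝ : H →L[ℝ] H →L[ℝ] ℝ).bilinearComp T T)

theorem LqT_apply (T : V →L[ℝ] H) (c : ℝ) (x y : V) : LqT T c x y = 2 * c * ⟪T x, T y⟫ := rfl

theorem qT_fderiv (T : V →L[ℝ] H) (a c : ℝ) :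
    fderiv ℝ (fun x : V => a + c * ‖T x‖ ^ 2) = fun x => LqT T c x := by
  funext x
  have h1 : HasFDerivAt (fun x : V => ‖T x‖ ^ 2) ((2 • (innerSL ℝ) (T x)).comp T) x :=
    ((hasStrictFDerivAt_norm_sq (T x)).hasFDerivAt).comp x T.hasFDerivAt
  have h2 := (h1.const_mul c).const_add a
  rw [h2.fderiv]
  ext y
  rw [LqT_apply]
  simp
  ring

theorem LqT_norm (T : V →L[ℝ] H) (c : ℝ) {t : ℝ} (ht : 0 ≤ t) (hT : ∀ v, ‖T v‖ ≤ t * ‖v‖) :
    ‖LqT T c‖ ≤ 2 * |c| * t ^ 2 := by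
  refine ContinuousLinearMap.opNorm_le_bound₂ _ (by positivity) fun x y => ?_
  rw [LqT_apply, Real.norm_eq_abs, abs_mul, abs_mul, abs_two]
  have h1 := abs_real_inner_le_norm (T x) (T y)
  have h2 : ‖T x‖ * ‖T y‖ ≤ (t * ‖x‖) * (t * ‖y‖) :=
    mul_le_mul (hT x) (hT y) (norm_nonneg _) (by positivity)
  calc 2 * |c| * |⟪T x, T y⟫| ≤ 2 * |c| * ((t * ‖x‖) * (t * ‖y‖)) := by
        gcongr
        exact h1.trans h2
    _ = _ := by ring

theorem qT_bound (T : V →L[ℝ] H) (a c : ℝ) {t K D : ℝ} (ht : 0 ≤ t) (hT : ∀ v, ‖T v‖ ≤ t * ‖v‖)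
    (x : V) (hK0 : 0 ≤ K) (hK : ∀ v, |⟪T x, T v⟫| ≤ K * ‖v‖) (hD0 : 0 ≤ D) (h1 : 2 * |c| * K ≤ D)
    (h2 : 2 * |c| * t ^ 2 ≤ D ^ 2) (i : ℕ) (hi : 1 ≤ i) :
    ‖iteratedFDeriv ℝ i (fun x : V => a + c * ‖T x‖ ^ 2) x‖ ≤ D ^ i := by
  rcases i with _ | _ | _ | k
  · omega
  · rw [← norm_iteratedFDeriv_fderiv, qT_fderiv, norm_iteratedFDeriv_zero]
    refine (ContinuousLinearMap.opNorm_le_bound _ (by positivity) fun v => ?_).trans
      (h1.trans (le_of_eq (by ring)))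
    rw [LqT_apply, Real.norm_eq_abs, abs_mul, abs_mul, abs_two]
    calc 2 * |c| * |⟪T x, T v⟫| ≤ 2 * |c| * (K * ‖v‖) := by
          gcongr
          exact hK v
      _ = _ := by ring
  · rw [← norm_iteratedFDeriv_fderiv, qT_fderiv]
    have := lin_one (LqT T c) x
    rw [show 0 + 1 = 1 from rfl, this]
    exact (LqT_norm T c ht hT).trans h2
  · rw [← norm_iteratedFDeriv_fderiv, qT_fderiv,
      show k + 1 + 1 = k + 2 from rfl, lin_two]
    positivity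

end quad

/-! ### Splitting of the coordinates -/

variable {m : ℕ}

/-- splitting of the coordinates -/
def ee (m : ℕ) : E (m + 1) ≃L[ℝ] E m × E 1 := EuclideanSpace.finAddEquivProd

theorem hd_eq (x : E (m + 1)) : hd m x = (ee m x).1 := rfl

theorem pr_eq (x : E (m + 1)) : pr m x = (ee m x).2 := rfl

theorem inner_split (x y : E (m + 1)) : ⟪x, y⟫ = ⟪hd m x, hd m y⟫ + ⟪pr m x, pr m y⟫ := by
  have h1 : ∀ (x : E (m + 1)) (i : Fin m), (hd m x) i = x (Fin.castAdd 1 i) := fun _ _ => rfl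
  have h2 : ∀ (x : E (m + 1)) (i : Fin 1), (pr m x) i = x (Fin.natAdd m i) := fun _ _ => rfl
  rw [PiLp.inner_apply, PiLp.inner_apply, PiLp.inner_apply, Fin.sum_univ_add]
  simp only [h1, h2]

theorem norm_split (x : E (m + 1)) : ‖x‖ ^ 2 = ‖hd m x‖ ^ 2 + ‖pr m x‖ ^ 2 := by
  rw [← real_inner_self_eq_norm_sq, inner_split, real_inner_self_eq_norm_sq, real_inner_self_eq_norm_sq]

theorem hd_le (x : E (m + 1)) : ‖hd m x‖ ≤ ‖x‖ := by
  have := norm_split x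
  exact le_of_sq_le_sq (by nlinarith [sq_nonneg ‖pr m x‖]) (norm_nonneg _)

theorem pr_le (x : E (m + 1)) : ‖pr m x‖ ≤ ‖x‖ := by
  have := norm_split x
  exact le_of_sq_le_sq (by nlinarith [sq_nonneg ‖hd m x‖]) (norm_nonneg _)

/-- scaling of the last coordinate by `c` -/
def Bc (m : ℕ) (c : ℝˣ) : E (m + 1) ≃L[ℝ] E (m + 1) :=
  ((ee m).trans ((ContinuousLinearEquiv.refl ℝ (E m)).prodCongr
    (ContinuousLinearEquiv.smulLeft (M₁ := E 1) (R₁ := ℝ) c))).trans (ee m).symm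

theorem hd_Bc (c : ℝˣ) (x : E (m + 1)) : hd m (Bc m c x) = hd m x := by
  rw [hd_eq, hd_eq]
  simp [Bc]

theorem pr_Bc (c : ℝˣ) (x : E (m + 1)) : pr m (Bc m c x) = (c : ℝ) • pr m x := by
  rw [pr_eq, pr_eq]
  simp [Bc]
  rfl

/-- the projection to the last coordinate -/
def prL (m : ℕ) : E (m + 1) →L[ℝ] E 1 :=
  (ContinuousLinearMap.snd ℝ (E m) (E 1)).comp (ee m : E (m + 1) →L[ℝ] E m × E 1)

theorem prL_apply (x : E (m + 1)) : prL m x = pr m x := rfl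

theorem pm_smooth {ψ θ : ℝ → ℝ} (hψ : Bump ψ) (hθ : Cut θ) (A l : ℝ) :
    ContDiff ℝ (⊤ : ℕ∞) (pm m ψ θ A l) := by
  unfold pm
  have h1 : ContDiff ℝ (⊤ : ℕ∞) fun ξ : E (m + 1) => ‖prL m ξ‖ ^ 2 / l ^ 2 :=
    ((contDiff_norm_sq ℝ).comp (prL m).contDiff).div_const _
  exact (mu_smooth hψ A 1).mul (Complex.ofRealCLM.contDiff.comp (hθ.1.comp h1))

/-! ### Bounds for the derivatives -/

theorem bd_on {f : ℝ → ℝ} (hf : ContDiff ℝ (⊤ : ℕ∞) f) {K : Set ℝ} (hK : IsCompact K) (N : ℕ) :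
    ∃ C : ℝ, 0 ≤ C ∧ ∀ i ≤ N, ∀ v ∈ K, ‖iteratedFDeriv ℝ i (fun v : ℝ => ((f v : ℝ) : ℂ)) v‖ ≤ C := by
  have hs : ContDiff ℝ (⊤ : ℕ∞) fun v : ℝ => ((f v : ℝ) : ℂ) := Complex.ofRealCLM.contDiff.comp hf
  have hb : ∀ i : ℕ, ∃ C : ℝ, ∀ v ∈ K, ‖iteratedFDeriv ℝ i (fun v : ℝ => ((f v : ℝ) : ℂ)) v‖ ≤ C := by
    intro i
    have h2 : Continuous (iteratedFDeriv ℝ i (fun v : ℝ => ((f v : ℝ) : ℂ))) :=
      hs.continuous_iteratedFDeriv (by exact_mod_cast le_top)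
    exact hK.exists_bound_of_continuousOn h2.continuousOn
  choose c hcb using hb
  refine ⟨∑ i ∈ Finset.range (N + 1), |c i|, Finset.sum_nonneg fun i _ => abs_nonneg _,
    fun i hi v hv => (hcb i v hv).trans ((le_abs_self _).trans ?_)⟩
  exact Finset.single_le_sum (f := fun i => |c i|) (fun i _ => abs_nonneg _)
    (Finset.mem_range.2 (by omega))

theorem comp_bound {V : Type*} [NormedAddCommGroup V] [NormedSpace ℝ V] {f : ℝ → ℝ}
    (hf : ContDiff ℝ (⊤ : ℕ∞) f) {q : V → ℝ} (hq : ContDiff ℝ (⊤ : ℕ∞) q) {N : ℕ} {K : Set ℝ}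
    {C D : ℝ} (hC0 : 0 ≤ C) (hD0 : 0 ≤ D)
    (hC : ∀ i ≤ N, ∀ v ∈ K, ‖iteratedFDeriv ℝ i (fun v : ℝ => ((f v : ℝ) : ℂ)) v‖ ≤ C) {x : V}
    (hx : q x ∈ K) (hD : ∀ i, 1 ≤ i → ‖iteratedFDeriv ℝ i q x‖ ≤ D ^ i) (i : ℕ) (hi : i ≤ N) :
    ‖iteratedFDeriv ℝ i (fun y => ((f (q y) : ℝ) : ℂ)) x‖ ≤ N.factorial * C * D ^ i := by
  have hs : ContDiff ℝ (⊤ : ℕ∞) fun v : ℝ => ((f v : ℝ) : ℂ) := Complex.ofRealCLM.contDiff.comp hf
  have h1 := norm_iteratedFDeriv_comp_le (𝕜 := ℝ) (g := fun v : ℝ => ((f v : ℝ) : ℂ))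
    (f := q) (n := i) (N := (⊤ : ℕ∞)) hs hq (by exact_mod_cast le_top) x (C := C) (D := D)
    (fun k hk => hC k (hk.trans hi) _ hx) (fun k hk _ => hD k hk)
  have h2 : ((fun v : ℝ => ((f v : ℝ) : ℂ)) ∘ q) = fun y => ((f (q y) : ℝ) : ℂ) := rfl
  rw [h2] at h1
  refine h1.trans ?_
  have h3 : (i.factorial : ℝ) ≤ N.factorial := by exact_mod_cast Nat.factorial_le hi
  gcongr

theorem mul_bound {V : Type*} [NormedAddCommGroup V] [NormedSpace ℝ V] {F G : V → ℂ}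
    (hF : ContDiff ℝ (⊤ : ℕ∞) F) (hG : ContDiff ℝ (⊤ : ℕ∞) G) {N : ℕ} {a b D : ℝ} (ha : 0 ≤ a)
    (hD : 0 ≤ D) {x : V} (h1 : ∀ i ≤ N, ‖iteratedFDeriv ℝ i F x‖ ≤ a * D ^ i)
    (h2 : ∀ i ≤ N, ‖iteratedFDeriv ℝ i G x‖ ≤ b * D ^ i) (i : ℕ) (hi : i ≤ N) :
    ‖iteratedFDeriv ℝ i (fun y => F y * G y) x‖ ≤ 2 ^ i * (a * b * D ^ i) := by
  have h3 := norm_iteratedFDeriv_mul_le (𝕜 := ℝ) hF hG x (n := i) (by exact_mod_cast le_top)
  refine h3.trans ?_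
  calc ∑ j ∈ Finset.range (i + 1), (i.choose j : ℝ) * ‖iteratedFDeriv ℝ j F x‖ *
        ‖iteratedFDeriv ℝ (i - j) G x‖
      ≤ ∑ j ∈ Finset.range (i + 1), (i.choose j : ℝ) * (a * b * D ^ i) := by
        refine Finset.sum_le_sum fun j hj => ?_
        have hj' : j ≤ i := by
          have := Finset.mem_range.1 hj
          omega
        have e1 := h1 j (hj'.trans hi)
        have e2 := h2 (i - j) (by omega)
        have e3 : D ^ j * D ^ (i - j) = D ^ i := by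
          rw [← pow_add]
          congr 1
          omega
        calc (i.choose j : ℝ) * ‖iteratedFDeriv ℝ j F x‖ * ‖iteratedFDeriv ℝ (i - j) G x‖
            ≤ (i.choose j : ℝ) * (a * D ^ j) * (b * D ^ (i - j)) := by
              gcongr
          _ = (i.choose j : ℝ) * (a * b * (D ^ j * D ^ (i - j))) := by ring
          _ = _ := by rw [e3]
    _ = _ := by
        rw [← Finset.sum_mul]
        congr 1
        exact_mod_cast Nat.sum_range_choose i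

/-- the rescaled multiplier -/
def MM (m : ℕ) (ψ θ : ℝ → ℝ) (A l : ℝ) (c : ℝˣ) (η : E (m + 1)) : ℂ := pm m ψ θ A l (Bc m c η)

/-- the first quadratic function -/
def q1 (m : ℕ) (A : ℝ) (c : ℝˣ) (η : E (m + 1)) : ℝ :=
  A + (-A) * ‖(Bc m c : E (m + 1) →L[ℝ] E (m + 1)) η‖ ^ 2

/-- the second quadratic function -/
def q2 (m : ℕ) (l : ℝ) (c : ℝˣ) (η : E (m + 1)) : ℝ :=
  0 + 1 / l ^ 2 * ‖((prL m).comp (Bc m c : E (m + 1) →L[ℝ] E (m + 1))) η‖ ^ 2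

theorem MM_eq (ψ θ : ℝ → ℝ) (A l : ℝ) (c : ℝˣ) :
    MM m ψ θ A l c = fun η => ((ψ (q1 m A c η) : ℝ) : ℂ) * ((θ (q2 m l c η) : ℝ) : ℂ) := by
  funext η
  unfold MM pm mu
  congr 3
  · unfold q1
    rw [ContinuousLinearEquiv.coe_coe]
    ring
  · unfold q2
    rw [ContinuousLinearMap.comp_apply, ContinuousLinearEquiv.coe_coe, prL_apply]
    ring

theorem q1_smooth (A : ℝ) (c : ℝˣ) : ContDiff ℝ (⊤ : ℕ∞) (q1 m A c) :=
  contDiff_const.add (contDiff_const.mul ((contDiff_norm_sq ℝ).comp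
    (Bc m c : E (m + 1) →L[ℝ] E (m + 1)).contDiff))

theorem q2_smooth (l : ℝ) (c : ℝˣ) : ContDiff ℝ (⊤ : ℕ∞) (q2 m l c) :=
  contDiff_const.add (contDiff_const.mul ((contDiff_norm_sq ℝ).comp
    ((prL m).comp (Bc m c : E (m + 1) →L[ℝ] E (m + 1))).contDiff))

/-- the region which contains the support -/
def Rg (m : ℕ) (A l : ℝ) (c : ℝˣ) : Set (E (m + 1)) :=
  {η | q1 m A c η ∈ Icc (1 / 2 : ℝ) 2 ∧ q2 m l c η ∈ Icc (0 : ℝ) 2}

theorem Rg_closed (A l : ℝ) (c : ℝˣ) : IsClosed (Rg m A l c) :=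
  (isClosed_Icc.preimage (q1_smooth A c).continuous).inter
    (isClosed_Icc.preimage (q2_smooth l c).continuous)

theorem MM_supp {ψ θ : ℝ → ℝ} (hψ : Bump ψ) (hθ : Cut θ) (A l : ℝ) (c : ℝˣ) :
    tsupport (MM m ψ θ A l c) ⊆ Rg m A l c := by
  refine closure_minimal (fun η hη => ?_) (Rg_closed A l c)
  rw [Function.mem_support, MM_eq] at hη
  have h1 : ψ (q1 m A c η) ≠ 0 := fun h => hη (by simp [h])
  have h2 : θ (q2 m l c η) ≠ 0 := fun h => hη (by simp [h])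
  refine ⟨hψ.2 _ h1, ?_, ?_⟩
  · unfold q2
    positivity
  · by_contra h3
    push Not at h3
    exact h2 (hθ.2 _ h3.le)

theorem Rg_norm {A l : ℝ} (hA : 0 < A) (hl : 0 < l) {c : ℝˣ} {η : E (m + 1)} (h : η ∈ Rg m A l c) :
    ‖Bc m c η‖ ≤ 1 ∧ ‖pr m (Bc m c η)‖ ≤ 2 * l := by
  obtain ⟨⟨h1, -⟩, -, h2⟩ := h
  unfold q1 at h1
  unfold q2 at h2
  rw [ContinuousLinearEquiv.coe_coe] at h1
  rw [ContinuousLinearMap.comp_apply, ContinuousLinearEquiv.coe_coe, prL_apply, zero_add,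
    one_div_mul_eq_div, div_le_iff₀ (by positivity)] at h2
  constructor
  · have h3 : ‖Bc m c η‖ ^ 2 ≤ 1 ^ 2 := by
      by_contra h4
      push Not at h4
      nlinarith
    exact le_of_sq_le_sq h3 zero_le_one
  · refine le_of_sq_le_sq ?_ (by positivity)
    nlinarith [sq_nonneg l]

theorem Bc_le {l : ℝ} (hl : 0 < l) (hl1 : l ≤ 1) {c : ℝˣ} (hc : (c : ℝ) = l⁻¹) (v : E (m + 1)) :
    ‖Bc m c v‖ ≤ l⁻¹ * ‖v‖ := by
  have h1 := norm_split (m := m) (Bc m c v)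
  rw [hd_Bc, pr_Bc, norm_smul, Real.norm_eq_abs, hc, abs_of_pos (by positivity)] at h1
  have h2 := norm_split (m := m) v
  have h3 : 1 ≤ l⁻¹ := (one_le_inv₀ hl).2 hl1
  refine le_of_sq_le_sq ?_ (by positivity)
  rw [h1, mul_pow, mul_pow, h2, mul_add]
  have h4 : 1 ≤ l⁻¹ ^ 2 := one_le_pow₀ h3
  nlinarith [sq_nonneg ‖hd m v‖]

theorem q1_der {A l : ℝ} (hA : 4 ≤ A) (hl : 0 < l) (hl1 : l ≤ 1) (hAl : 1 ≤ A * l ^ 2) {c : ℝˣ}
    (hc : (c : ℝ) = l⁻¹) {η : E (m + 1)} (h : η ∈ Rg m A l c) (i : ℕ) (hi : 1 ≤ i) :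
    ‖iteratedFDeriv ℝ i (q1 m A c) η‖ ≤ (6 * A) ^ i := by
  obtain ⟨h1, h2⟩ := Rg_norm (by linarith) hl h
  refine qT_bound (V := E (m + 1)) (H := E (m + 1)) (Bc m c : E (m + 1) →L[ℝ] E (m + 1)) A (-A)
    (t := l⁻¹) (K := 3) (D := 6 * A) (by positivity) (fun v => Bc_le hl hl1 hc v) η (by norm_num)
    (fun v => ?_) (by linarith) ?_ ?_ i hi
  · rw [ContinuousLinearEquiv.coe_coe, inner_split, hd_Bc _ v, pr_Bc _ v, inner_smul_right, hc]
    have e1 := abs_real_inner_le_norm (hd m (Bc m c η)) (hd m v)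
    have e2 := abs_real_inner_le_norm (pr m (Bc m c η)) (pr m v)
    have e3 : ‖hd m (Bc m c η)‖ * ‖hd m v‖ ≤ 1 * ‖v‖ :=
      mul_le_mul ((hd_le _).trans h1) (hd_le v) (norm_nonneg _) zero_le_one
    have e4 : ‖pr m (Bc m c η)‖ * ‖pr m v‖ ≤ (2 * l) * ‖v‖ :=
      mul_le_mul h2 (pr_le v) (norm_nonneg _) (by positivity)
    calc |⟪hd m (Bc m c η), hd m v⟫ + l⁻¹ * ⟪pr m (Bc m c η), pr m v⟫|
        ≤ |⟪hd m (Bc m c η), hd m v⟫| + |l⁻¹ * ⟪pr m (Bc m c η), pr m v⟫| := abs_add_le _ _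
      _ ≤ 1 * ‖v‖ + l⁻¹ * ((2 * l) * ‖v‖) := by
          rw [abs_mul, abs_of_pos (by positivity : 0 < l⁻¹)]
          exact add_le_add (e1.trans e3) (mul_le_mul_of_nonneg_left (e2.trans e4) (by positivity))
      _ = 3 * ‖v‖ := by
          field_simp
          ring
  · rw [abs_neg, abs_of_pos (by linarith)]
    linarith
  · rw [abs_neg, abs_of_pos (by linarith)]
    have e1 : l⁻¹ ^ 2 ≤ A := by
      rw [inv_pow, inv_le_iff_one_le_mul₀ (by positivity)]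
      exact hAl
    nlinarith

theorem q2_der {A l : ℝ} (hA : 4 ≤ A) (hl : 0 < l) (hl1 : l ≤ 1) (hAl : 1 ≤ A * l ^ 2) {c : ℝˣ}
    (hc : (c : ℝ) = l⁻¹) {η : E (m + 1)} (h : η ∈ Rg m A l c) (i : ℕ) (hi : 1 ≤ i) :
    ‖iteratedFDeriv ℝ i (q2 m l c) η‖ ≤ (6 * A) ^ i := by
  obtain ⟨h1, h2⟩ := Rg_norm (by linarith) hl h
  have e0 : l⁻¹ ^ 2 ≤ A := by
    rw [inv_pow, inv_le_iff_one_le_mul₀ (by positivity)]
    exact hAl
  have e00 : 1 / l ^ 2 = l⁻¹ ^ 2 := by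
    rw [inv_pow, one_div]
  refine qT_bound (V := E (m + 1)) (H := E 1) ((prL m).comp (Bc m c : E (m + 1) →L[ℝ] E (m + 1)))
    0 (1 / l ^ 2) (t := l⁻¹) (K := 2) (D := 6 * A) (by positivity) (fun v => ?_) η (by norm_num)
    (fun v => ?_) (by linarith) ?_ ?_ i hi
  · rw [ContinuousLinearMap.comp_apply, ContinuousLinearEquiv.coe_coe, prL_apply]
    exact (pr_le _).trans (Bc_le hl hl1 hc v)
  · rw [ContinuousLinearMap.comp_apply, ContinuousLinearMap.comp_apply, ContinuousLinearEquiv.coe_coe,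
      prL_apply, prL_apply, pr_Bc _ v, inner_smul_right, hc, abs_mul, abs_of_pos (by positivity : 0 < l⁻¹)]
    have e2 := abs_real_inner_le_norm (pr m (Bc m c η)) (pr m v)
    have e4 : ‖pr m (Bc m c η)‖ * ‖pr m v‖ ≤ (2 * l) * ‖v‖ :=
      mul_le_mul h2 (pr_le v) (norm_nonneg _) (by positivity)
    calc l⁻¹ * |⟪pr m (Bc m c η), pr m v⟫| ≤ l⁻¹ * ((2 * l) * ‖v‖) :=
          mul_le_mul_of_nonneg_left (e2.trans e4) (by positivity)
      _ = 2 * ‖v‖ := by field_simp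
  · rw [abs_of_pos (by positivity), e00]
    linarith
  · rw [abs_of_pos (by positivity), e00]
    have e3 : 0 ≤ l⁻¹ ^ 2 := by positivity
    nlinarith

theorem MM_deriv (m : ℕ) {ψ θ : ℝ → ℝ} (hψ : Bump ψ) (hθ : Cut θ) (N : ℕ) : ∃ C : ℝ, 0 < C ∧
    ∀ A l : ℝ, 4 ≤ A → 0 < l → l ≤ 1 → 1 ≤ A * l ^ 2 → ∀ c : ℝˣ, (c : ℝ) = l⁻¹ → ∀ i ≤ N,
    ∀ η : E (m + 1), ‖iteratedFDeriv ℝ i (MM m ψ θ A l c) η‖ ≤
      (Rg m A l c).indicator (fun _ => C * A ^ N) η := by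
  obtain ⟨C1, hC1, hb1⟩ := bd_on hψ.1 (isCompact_Icc (a := (1 / 2 : ℝ)) (b := 2)) N
  obtain ⟨C2, hC2, hb2⟩ := bd_on hθ.1 (isCompact_Icc (a := (0 : ℝ)) (b := 2)) N
  refine ⟨2 ^ N * ((N.factorial * C1) * (N.factorial * C2)) * 6 ^ N + 1, by positivity,
    fun A l hA hl hl1 hAl c hc i hi η => ?_⟩
  by_cases hη : η ∈ Rg m A l c
  · rw [indicator_of_mem hη, MM_eq]
    have hD : 1 ≤ 6 * A := by linarith
    have h1 := comp_bound hψ.1 (q1_smooth (m := m) A c) hC1 (by linarith : 0 ≤ 6 * A) hb1 hη.1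
      (q1_der hA hl hl1 hAl hc hη)
    have h2 := comp_bound hθ.1 (q2_smooth (m := m) l c) hC2 (by linarith : 0 ≤ 6 * A) hb2 hη.2
      (q2_der hA hl hl1 hAl hc hη)
    have h3 := mul_bound (Complex.ofRealCLM.contDiff.comp (hψ.1.comp (q1_smooth (m := m) A c)))
      (Complex.ofRealCLM.contDiff.comp (hθ.1.comp (q2_smooth (m := m) l c)))
      (by positivity : 0 ≤ (N.factorial : ℝ) * C1) (by linarith : 0 ≤ 6 * A) h1 h2 i hi
    refine h3.trans ?_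
    have e1 : (2 : ℝ) ^ i ≤ 2 ^ N := pow_le_pow_right₀ (by norm_num) hi
    have e2 : (6 * A) ^ i ≤ (6 * A) ^ N := pow_le_pow_right₀ hD hi
    calc (2 : ℝ) ^ i * ((N.factorial : ℝ) * C1 * (N.factorial * C2) * (6 * A) ^ i)
        ≤ 2 ^ N * ((N.factorial : ℝ) * C1 * (N.factorial * C2) * (6 * A) ^ N) := by gcongr
      _ = 2 ^ N * ((N.factorial * C1) * (N.factorial * C2)) * 6 ^ N * A ^ N := by
          rw [mul_pow]
          ring
      _ ≤ _ := by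
          have : 0 ≤ A ^ N := by positivity
          nlinarith
  · rw [indicator_of_notMem hη]
    have h0 : η ∉ tsupport (MM m ψ θ A l c) := fun h => hη (MM_supp hψ hθ A l c h)
    have : iteratedFDeriv ℝ i (MM m ψ θ A l c) η = 0 := by
      by_contra hne
      exact h0 (support_iteratedFDeriv_subset i hne)
    rw [this, norm_zero]

/-! ### The Fourier transform -/

theorem MM_smooth {ψ θ : ℝ → ℝ} (hψ : Bump ψ) (hθ : Cut θ) (A l : ℝ) (c : ℝˣ) :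
    ContDiff ℝ (⊤ : ℕ∞) (MM m ψ θ A l c) := by
  rw [MM_eq]
  exact (Complex.ofRealCLM.contDiff.comp (hψ.1.comp (q1_smooth (m := m) A c))).mul
    (Complex.ofRealCLM.contDiff.comp (hθ.1.comp (q2_smooth (m := m) l c)))

/-- the bilinear form -/
def LL (m : ℕ) (c : ℝˣ) : E (m + 1) →L[ℝ] E (m + 1) →L[ℝ] ℝ :=
  (innerSL ℝ : E (m + 1) →L[ℝ] E (m + 1) →L[ℝ] ℝ).comp (Bc m c : E (m + 1) →L[ℝ] E (m + 1))

theorem LL_apply (c : ℝˣ) (x y : E (m + 1)) : LL m c x y = ⟪Bc m c x, y⟫ := rfl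

theorem LL_self (c : ℝˣ) (x : E (m + 1)) : LL m c (Bc m c x) x = ‖Bc m c x‖ ^ 2 := by
  rw [LL_apply, inner_split, norm_split (Bc m c x), hd_Bc, hd_Bc, pr_Bc, pr_Bc, inner_smul_left,
    inner_smul_left, norm_smul, mul_pow, ← real_inner_self_eq_norm_sq, ← real_inner_self_eq_norm_sq (pr m x)]
  simp only [conj_trivial, Real.norm_eq_abs, sq_abs]
  ring

/-- the transported measure -/
def mp (m : ℕ) (c : ℝˣ) : Measure (E (m + 1)) := Measure.map (Bc m c).symm volume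

theorem emb (c : ℝˣ) : MeasurableEmbedding (Bc m c).symm :=
  (Bc m c).symm.toHomeomorph.measurableEmbedding

theorem fourier_eq (ψ θ : ℝ → ℝ) (A l : ℝ) (c : ℝˣ) (x : E (m + 1)) :
    VectorFourier.fourierIntegral Real.fourierChar (mp m c) (LL m c).toLinearMap₁₂
      (MM m ψ θ A l c) x = 𝓕 (pm m ψ θ A l) x := by
  rw [VectorFourier.fourierIntegral, mp, (emb c).integral_map, Real.fourier_eq]
  refine integral_congr_ae (Eventually.of_forall fun ξ => ?_)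
  have h1 : (LL m c).toLinearMap₁₂ ((Bc m c).symm ξ) x = ⟪ξ, x⟫ := by
    change ⟪Bc m c ((Bc m c).symm ξ), x⟫ = _
    rw [ContinuousLinearEquiv.apply_symm_apply]
  have h2 : MM m ψ θ A l c ((Bc m c).symm ξ) = pm m ψ θ A l ξ := by
    unfold MM
    rw [ContinuousLinearEquiv.apply_symm_apply]
  simp only [h1, h2]

theorem mp_Rg {A l : ℝ} (hA : 0 < A) (hl : 0 < l) (c : ℝˣ) :
    mp m c (Rg m A l c) ≤ volume (closedBall (0 : E (m + 1)) 1) := by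
  rw [mp, (emb c).map_apply]
  apply measure_mono
  intro ξ hξ
  rw [Set.mem_preimage] at hξ
  have h1 := (Rg_norm (c := c) hA hl hξ).1
  rw [ContinuousLinearEquiv.apply_symm_apply] at h1
  exact mem_closedBall_zero_iff.2 h1

/-- **DC.** -/
theorem t_dc (m : ℕ) : S_DC m := by
  intro ψ θ hψ hθ N
  obtain ⟨C, hC, hb⟩ := MM_deriv m hψ hθ N
  set V : ℝ := (volume : Measure (E (m + 1))).real (closedBall (0 : E (m + 1)) 1) with hV
  refine ⟨2 ^ N * (2 ^ N * ((N + 1) * (C * V))) + 1, by positivity, fun A hA l hl hl1 hAl x => ?_⟩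
  have hA0 : 0 < A := by linarith
  have hAN : 0 ≤ A ^ N := by positivity
  obtain ⟨c, hc⟩ : ∃ c : ℝˣ, (c : ℝ) = l⁻¹ := ⟨Units.mk0 l⁻¹ (inv_ne_zero hl.ne'), rfl⟩
  have : (mp m c).IsAddHaarMeasure := (Bc m c).symm.isAddHaarMeasure_map volume
  have hRfin : mp m c (Rg m A l c) ≠ ∞ := ((mp_Rg hA0 hl c).trans_lt measure_closedBall_lt_top).ne
  have hRV : (mp m c).real (Rg m A l c) ≤ V := by
    rw [hV]
    exact ENNReal.toReal_mono measure_closedBall_lt_top.ne (mp_Rg hA0 hl c)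
  have hI : Integrable ((Rg m A l c).indicator (fun _ => C * A ^ N)) (mp m c) := by
    rw [integrable_indicator_iff (Rg_closed A l c).measurableSet]
    exact integrableOn_const hRfin
  have hint : ∀ i ≤ N, Integrable (fun v => ‖iteratedFDeriv ℝ i (MM m ψ θ A l c) v‖) (mp m c) := by
    intro i hi
    refine hI.mono' ?_ ?_
    · exact ((MM_smooth hψ hθ A l c).continuous_iteratedFDeriv
        (by exact_mod_cast le_top)).norm.aestronglyMeasurable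
    · refine Eventually.of_forall fun v => ?_
      rw [norm_norm]
      exact hb A l hA hl hl1 hAl c hc i hi v
  have hint' : ∀ (k i : ℕ), (k : ℕ∞) ≤ (0 : ℕ∞) → (i : ℕ∞) ≤ (N : ℕ∞) →
      Integrable (fun v => ‖v‖ ^ k * ‖iteratedFDeriv ℝ i (MM m ψ θ A l c) v‖) (mp m c) := by
    intro k i hk hi
    have hk0 : k = 0 := by
      have : (k : ℕ∞) = 0 := le_antisymm hk bot_le
      exact_mod_cast this
    subst hk0
    simp only [pow_zero, one_mul]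
    exact hint i (by exact_mod_cast hi)
  have h1 := VectorFourier.pow_mul_norm_iteratedFDeriv_fourierIntegral_le (LL m c) (μ := mp m c) (K := 0)
    (N := (N : ℕ∞)) (f := MM m ψ θ A l c) ((MM_smooth hψ hθ A l c).of_le (by exact_mod_cast le_top)) hint'
    (k := 0) (n := N) le_rfl le_rfl (Bc m c x) x
  rw [norm_iteratedFDeriv_zero, LL_self, fourier_eq, abs_of_nonneg (by positivity)] at h1
  have h2 : ∀ i ≤ N, ∫ v, ‖iteratedFDeriv ℝ i (MM m ψ θ A l c) v‖ ∂(mp m c) ≤ C * A ^ N * V := by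
    intro i hi
    refine (integral_mono (hint i hi) hI fun v => hb A l hA hl hl1 hAl c hc i hi v).trans ?_
    rw [integral_indicator (Rg_closed A l c).measurableSet, setIntegral_const, smul_eq_mul, mul_comm]
    exact mul_le_mul_of_nonneg_left hRV (by positivity)
  have h3 : ∑ p ∈ Finset.range (0 + 1) ×ˢ Finset.range (N + 1),
      ∫ v, ‖v‖ ^ p.1 * ‖iteratedFDeriv ℝ p.2 (MM m ψ θ A l c) v‖ ∂(mp m c) ≤
        (N + 1) * (C * A ^ N * V) := by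
    rw [Finset.sum_product]
    simp only [zero_add, Finset.range_one, Finset.sum_singleton, pow_zero, one_mul]
    calc ∑ x ∈ Finset.range (N + 1), ∫ v, ‖iteratedFDeriv ℝ x (MM m ψ θ A l c) v‖ ∂(mp m c)
        ≤ ∑ x ∈ Finset.range (N + 1), C * A ^ N * V := Finset.sum_le_sum fun i hi =>
          h2 i (by have := Finset.mem_range.1 hi; omega)
      _ = _ := by rw [Finset.sum_const, Finset.card_range, nsmul_eq_mul]; push_cast; ring
  have h4 : ‖Bc m c x‖ ^ N * (‖Bc m c x‖ ^ N * ‖𝓕 (pm m ψ θ A l) x‖) ≤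
      ‖Bc m c x‖ ^ N * (2 ^ N * ((N + 1) * (C * A ^ N * V))) := by
    calc ‖Bc m c x‖ ^ N * (‖Bc m c x‖ ^ N * ‖𝓕 (pm m ψ θ A l) x‖)
        = (‖Bc m c x‖ ^ 2) ^ N * ‖𝓕 (pm m ψ θ A l) x‖ := by ring
      _ ≤ _ := h1
      _ ≤ ‖Bc m c x‖ ^ N * (2 * Real.pi * ‖LL m c‖) ^ 0 * (2 * ((0 : ℕ) : ℝ) + 2) ^ N *
          ((N + 1) * (C * A ^ N * V)) := by gcongr
      _ = _ := by
          rw [pow_zero]
          push_cast
          ring
  have h5 : ‖hd m x‖ + ‖pr m x‖ / l ≤ 2 * ‖Bc m c x‖ := by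
    have e1 := hd_le (Bc m c x)
    have e2 := pr_le (Bc m c x)
    rw [hd_Bc] at e1
    rw [pr_Bc, norm_smul, hc, Real.norm_eq_abs, abs_of_pos (by positivity : 0 < l⁻¹)] at e2
    rw [div_eq_inv_mul]
    linarith
  have h6 : 0 ≤ ‖hd m x‖ + ‖pr m x‖ / l := by positivity
  have h7 : (‖hd m x‖ + ‖pr m x‖ / l) ^ N * ‖𝓕 (pm m ψ θ A l) x‖ ≤
      2 ^ N * (‖Bc m c x‖ ^ N * ‖𝓕 (pm m ψ θ A l) x‖) := by
    rw [← mul_assoc, ← mul_pow]
    gcongr
  refine h7.trans ?_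
  rcases (pow_nonneg (norm_nonneg (Bc m c x)) N).eq_or_lt with h8 | h8
  · rw [← h8, zero_mul, mul_zero]
    positivity
  · have h9 := le_of_mul_le_mul_left h4 h8
    calc 2 ^ N * (‖Bc m c x‖ ^ N * ‖𝓕 (pm m ψ θ A l) x‖) ≤ 2 ^ N * (2 ^ N * ((N + 1) * (C * A ^ N * V))) :=
          mul_le_mul_of_nonneg_left h9 (by positivity)
      _ = 2 ^ N * (2 ^ N * ((N + 1) * (C * V))) * A ^ N := by ring
      _ ≤ _ := by nlinarith

end

end Pool.Agent.Y448.FD
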